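import Pool.Agent.Results.MP_24e13c_co.ChordalNERD

/-!
Chordal graphs with a nonnegative efficient real dominating function: the support is a disjoint
union of cliques, its last vertices form an independent dominating set and its first vertices a
packing. The beginning is the proof of `exists_dominating` in the earlier result `ChordalNERD`.
-/

set_option autoImplicit false
set_option linter.unusedSectionVars false

open Classical Finset

namespace Pool.Agent.Y387.NE

open Pool.Agent.Results.MP_24e13c_co.ChordalNERD

variable {V : Type*} [Fintype V] {G : SimpleGraph V}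

theorem core (hG : IsChordal G) {f : V → ℝ} (hf : IsNERD G f) :
    (∀ v, 0 < f v → ∀ a c, 0 < f a → 0 < f c → (a = v ∨ G.Adj v a) → (c = v ∨ G.Adj v c) →
      a ≠ c → G.Adj a c) ∧
    (∃ D : Finset V, IsDominating G D ∧ (∀ a ∈ D, 0 < f a) ∧ (∀ a ∈ D, ∀ b ∈ D, ¬ G.Adj a b) ∧
      (∀ v, 0 < f v → ∃ d ∈ D, (d = v ∨ G.Adj v d) ∧
        ∀ d' ∈ D, (d' = v ∨ G.Adj v d') → d' = d) ∧ (D.card : ℝ) = ∑ v, f v) ∧
    ∃ P : Finset V, (∀ p ∈ P, ∀ q ∈ P, p ≠ q → ∀ x, (x = p ∨ G.Adj p x) →
      (x = q ∨ G.Adj q x) → False) ∧ (∀ a ∈ P, 0 < f a) ∧ (P.card : ℝ) = ∑ v, f v := by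
  obtain ⟨r, hr1, hr2⟩ := exists_rank hG _ (Finset.univ : Finset V) rfl
  have hr1 : ∀ a b, r a = r b → a = b := fun a b => hr1 a (mem_univ _) b (mem_univ _)
  have hr2 : ∀ a x u, r a < r x → r a < r u → G.Adj a x → G.Adj a u → x ≠ u → G.Adj x u :=
    fun a x u => hr2 a (mem_univ _) x (mem_univ _) u (mem_univ _)
  obtain ⟨hf0, hf1⟩ := hf
  -- comparison: if the support part of `N[a]` lies in `N[b]` then they agree
  have hcomp : ∀ a b, (∀ c, 0 < f c → (c = a ∨ G.Adj a c) → (c = b ∨ G.Adj b c)) →
      ∀ c, 0 < f c → (c = b ∨ G.Adj b c) → (c = a ∨ G.Adj a c) := by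
    intro a b hab c hc hcb
    by_contra hca
    have h1 : closedSum G f a < closedSum G f b := by
      rw [closedSum_eq, closedSum_eq]
      apply Finset.sum_lt_sum
      · intro u _
        by_cases hu : u = a ∨ G.Adj a u
        · by_cases hu' : u = b ∨ G.Adj b u
          · rw [if_pos hu, if_pos hu']
          · have : f u ≤ 0 := by
              by_contra hfu
              push Not at hfu
              exact hu' (hab u hfu hu)
            rw [if_pos hu, if_neg hu']
            exact this
        · rw [if_neg hu]
          split_ifs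
          · exact hf0 u
          · exact le_rfl
      · refine ⟨c, mem_univ _, ?_⟩
        rw [if_neg hca, if_pos hcb]
        exact hc
    rw [hf1, hf1] at h1
    exact lt_irrefl _ h1
  -- the support neighbourhoods are cliques
  have hclq : ∀ n, ∀ b, r b = n → 0 < f b → ∀ a c, 0 < f a → 0 < f c → (a = b ∨ G.Adj b a) →
      (c = b ∨ G.Adj b c) → a ≠ c → G.Adj a c := by
    intro n
    induction n using Nat.strong_induction_on with
    | _ n ih =>
      intro b hb hfb
      by_cases hmin : ∃ a, 0 < f a ∧ G.Adj b a ∧ r a < r b
      · obtain ⟨a, hfa, hba, hra⟩ := hmin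
        have iha := ih (r a) (by omega) a rfl hfa
        have h1 : ∀ c, 0 < f c → (c = a ∨ G.Adj a c) → (c = b ∨ G.Adj b c) := by
          intro c hfc hca
          by_cases hcb : c = b
          · exact Or.inl hcb
          · right
            exact iha b c hfb hfc (Or.inr hba.symm) hca (fun h => hcb h.symm)
        have h2 := hcomp a b h1
        intro x y hfx hfy hx hy hxy
        exact iha x y hfx hfy (h2 x hfx hx) (h2 y hfy hy) hxy
      · push Not at hmin
        have hgt : ∀ a, 0 < f a → G.Adj b a → r b < r a := by
          intro a hfa hba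
          rcases Nat.lt_or_ge (r b) (r a) with h | h
          · exact h
          · exfalso
            rcases Nat.lt_or_ge (r a) (r b) with h' | h'
            · exact absurd h' (by have := hmin a hfa hba; omega)
            · have := hr1 a b (le_antisymm h h')
              subst this
              exact G.loopless.irrefl a hba
        intro x y hfx hfy hx hy hxy
        rcases hx with rfl | hx
        · rcases hy with rfl | hy
          · exact absurd rfl hxy
          · exact hy
        · rcases hy with rfl | hy
          · exact hx.symm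
          · exact hr2 b x y (hgt x hfx hx) (hgt y hfy hy) hx hy hxy
  have hclq' : ∀ b, 0 < f b → ∀ a c, 0 < f a → 0 < f c → (a = b ∨ G.Adj b a) →
      (c = b ∨ G.Adj b c) → a ≠ c → G.Adj a c := fun b => hclq (r b) b rfl
  -- adjacent support vertices have the same support neighbourhood
  have hsame : ∀ a b, 0 < f a → 0 < f b → G.Adj a b → ∀ c, 0 < f c → (c = a ∨ G.Adj a c) →
      (c = b ∨ G.Adj b c) := by
    intro a b hfa hfb hab c hfc hc
    by_cases hcb : c = b
    · exact Or.inl hcb
    · right
      exact hclq' a hfa b c hfb hfc (Or.inr hab) hc (fun h => hcb h.symm)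
  -- the set of last vertices
  let D : Finset V := Finset.univ.filter (fun d => 0 < f d ∧ ∀ a, 0 < f a → G.Adj d a → r a < r d)
  have hDmem : ∀ d, d ∈ D ↔ (0 < f d ∧ ∀ a, 0 < f a → G.Adj d a → r a < r d) := by
    intro d
    simp [D]
  have hDex : ∀ v, 0 < f v → ∃ d ∈ D, (d = v ∨ G.Adj v d) := by
    intro v hfv
    have hne : (Finset.univ.filter (fun u => 0 < f u ∧ (u = v ∨ G.Adj v u))).Nonempty :=
      ⟨v, by simp [hfv]⟩
    obtain ⟨d, hd, hmax⟩ := Finset.exists_max_image _ r hne
    rw [Finset.mem_filter] at hd
    refine ⟨d, ?_, hd.2.2⟩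
    rw [hDmem]
    refine ⟨hd.2.1, ?_⟩
    intro a hfa hda
    have hav : a = v ∨ G.Adj v a := by
      rcases hd.2.2 with h | h
      · subst h
        exact Or.inr hda
      · exact hsame d v hd.2.1 hfv h.symm a hfa (Or.inr hda)
    have h1 := hmax a (by simp [hfa, hav])
    rcases Nat.lt_or_ge (r a) (r d) with h | h
    · exact h
    · have := hr1 a d (le_antisymm h1 h)
      subst this
      exact absurd hda (G.loopless.irrefl a)
  have hDuniq : ∀ v, 0 < f v → ∀ d ∈ D, ∀ d' ∈ D, (d = v ∨ G.Adj v d) → (d' = v ∨ G.Adj v d') →
      d = d' := by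
    intro v hfv d hd d' hd' h h'
    rw [hDmem] at hd hd'
    by_contra hne
    have hadj := hclq' v hfv d d' hd.1 hd'.1 h h' hne
    have h1 := hd.2 d' hd'.1 hadj
    have h2 := hd'.2 d hd.1 hadj.symm
    omega
  refine ⟨hclq', ⟨D, ?_, fun a ha => ((hDmem a).1 ha).1, ?_, ?_, ?_⟩, ?_⟩
  · intro x
    by_cases hfx : 0 < f x
    · obtain ⟨d, hd, h⟩ := hDex x hfx
      rcases h with rfl | h
      · exact Or.inl hd
      · exact Or.inr ⟨d, hd, h⟩
    · right
      have hfx0 : f x = 0 := le_antisymm (not_lt.mp hfx) (hf0 x)
      by_cases hlow : ∃ a, 0 < f a ∧ G.Adj x a ∧ r a < r x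
      · obtain ⟨a, hfa, hxa, hra⟩ := hlow
        obtain ⟨d, hd, h⟩ := hDex a hfa
        rcases h with rfl | h
        · exact ⟨d, hd, hxa⟩
        · refine ⟨d, hd, ?_⟩
          have hd' := (hDmem d).mp hd
          have hrd : r a < r d := hd'.2 a hfa h.symm
          apply hr2 a x d hra hrd hxa.symm h
          rintro rfl
          exact hfx hd'.1
      · push Not at hlow
        have hgt : ∀ a, 0 < f a → G.Adj x a → r x < r a := by
          intro a hfa hxa
          have h1 := hlow a hfa hxa
          rcases Nat.lt_or_ge (r x) (r a) with h | h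
          · exact h
          · have := hr1 a x (le_antisymm h h1)
            subst this
            exact absurd hxa (G.loopless.irrefl a)
        -- some support neighbour
        obtain ⟨a, hfa, hxa⟩ : ∃ a, 0 < f a ∧ G.Adj x a := by
          by_contra hno
          push Not at hno
          have h1 : closedSum G f x = 0 := by
            unfold closedSum
            apply Finset.sum_eq_zero
            intro u hu
            rw [Finset.mem_filter] at hu
            rcases hu.2 with rfl | hu
            · exact hfx0
            · by_contra hne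
              exact hno u (lt_of_le_of_ne (hf0 u) (Ne.symm hne)) hu
          rw [hf1] at h1
          exact one_ne_zero h1
        have hsub : ∀ c, 0 < f c → (c = x ∨ G.Adj x c) → (c = a ∨ G.Adj a c) := by
          intro c hfc hc
          rcases hc with rfl | hc
          · exact absurd hfc hfx
          · by_cases hca : c = a
            · exact Or.inl hca
            · right
              exact hr2 x a c (hgt a hfa hxa) (hgt c hfc hc) hxa hc (fun h => hca h.symm)
        have hsub' := hcomp x a hsub
        obtain ⟨d, hd, h⟩ := hDex a hfa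
        have hd' := (hDmem d).mp hd
        rcases hsub' d hd'.1 h with h1 | h1
        · subst h1
          exact absurd hd'.1 hfx
        · exact ⟨d, hd, h1⟩
  · intro a ha b hb hab
    rw [hDmem] at ha hb
    have h1 := ha.2 b hb.1 hab
    have h2 := hb.2 a ha.1 hab.symm
    omega
  · intro v hfv
    obtain ⟨d, hd, h⟩ := hDex v hfv
    exact ⟨d, hd, h, fun d' hd' h' => hDuniq v hfv d' hd' d hd h' h⟩
  · have h1 : (D.card : ℝ) = ∑ d ∈ D, closedSum G f d := by
      rw [Finset.sum_congr rfl (fun d _ => hf1 d)]
      simp
    have h2 : ∑ d ∈ D, closedSum G f d = ∑ v, (if v ∈ D then (1 : ℝ) else 0) * closedSum G f v := by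
      simp [Finset.sum_ite_mem]
    rw [h1, h2, double_count]
    apply Finset.sum_congr rfl
    intro v _
    by_cases hfv : 0 < f v
    · obtain ⟨d, hd, h⟩ := hDex v hfv
      have h3 : closedSum G (fun v => if v ∈ D then (1 : ℝ) else 0) v = 1 := by
        unfold closedSum
        rw [Finset.sum_eq_single_of_mem d]
        · simp [hd]
        · simpa using h
        · intro u hu hud
          rw [Finset.mem_filter] at hu
          have : u ∉ D := fun huD => hud (hDuniq v hfv u huD d hd hu.2 h)
          simp [this]
      rw [h3, mul_one]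
    · have : f v = 0 := le_antisymm (not_lt.mp hfv) (hf0 v)
      rw [this, zero_mul]
  · -- the first vertices of the cliques
    let P : Finset V :=
      Finset.univ.filter (fun d => 0 < f d ∧ ∀ a, 0 < f a → G.Adj d a → r d < r a)
    have hPmem : ∀ d, d ∈ P ↔ (0 < f d ∧ ∀ a, 0 < f a → G.Adj d a → r d < r a) := by
      intro d
      simp [P]
    have hPex : ∀ v, 0 < f v → ∃ d ∈ P, (d = v ∨ G.Adj v d) := by
      intro v hfv
      have hne : (Finset.univ.filter (fun u => 0 < f u ∧ (u = v ∨ G.Adj v u))).Nonempty :=
        ⟨v, by simp [hfv]⟩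
      obtain ⟨d, hd, hmin⟩ := Finset.exists_min_image _ r hne
      rw [Finset.mem_filter] at hd
      refine ⟨d, ?_, hd.2.2⟩
      rw [hPmem]
      refine ⟨hd.2.1, ?_⟩
      intro a hfa hda
      have hav : a = v ∨ G.Adj v a := by
        rcases hd.2.2 with h | h
        · subst h
          exact Or.inr hda
        · exact hsame d v hd.2.1 hfv h.symm a hfa (Or.inr hda)
      have h1 := hmin a (by simp [hfa, hav])
      rcases Nat.lt_or_ge (r d) (r a) with h | h
      · exact h
      · have := hr1 a d (le_antisymm h h1)
        subst this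
        exact absurd hda (G.loopless.irrefl a)
    have hPnadj : ∀ p ∈ P, ∀ q ∈ P, ¬ G.Adj p q := by
      intro a ha b hb hab
      rw [hPmem] at ha hb
      have h1 := ha.2 b hb.1 hab
      have h2 := hb.2 a ha.1 hab.symm
      omega
    have hPuniq : ∀ v, 0 < f v → ∀ d ∈ P, ∀ d' ∈ P, (d = v ∨ G.Adj v d) →
        (d' = v ∨ G.Adj v d') → d = d' := by
      intro v hfv d hd d' hd' h h'
      by_contra hne
      exact hPnadj d hd d' hd' (hclq' v hfv d d' ((hPmem d).1 hd).1 ((hPmem d').1 hd').1 h h' hne)
    -- a common neighbour that is later than `p`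
    have hlate : ∀ p ∈ P, ∀ q ∈ P, p ≠ q → ∀ x, ¬ 0 < f x → G.Adj p x → G.Adj q x →
        r p < r x → False := by
      intro p hp q hq hpq x hfx hpx hqx hr
      have hp' := (hPmem p).1 hp
      have hq' := (hPmem q).1 hq
      have h1 : ∀ c, 0 < f c → (c = p ∨ G.Adj p c) → (c = x ∨ G.Adj x c) := by
        intro c hfc hc
        right
        rcases hc with rfl | hc
        · exact hpx.symm
        · refine hr2 p x c hr (hp'.2 c hfc hc) hpx hc ?_
          rintro rfl
          exact hfx hfc
      have h2 := hcomp p x h1 q hq'.1 (Or.inr hqx.symm)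
      rcases h2 with h2 | h2
      · exact hpq h2.symm
      · exact hPnadj p hp q hq h2
    refine ⟨P, ?_, fun a ha => ((hPmem a).1 ha).1, ?_⟩
    · intro p hp q hq hpq x hxp hxq
      have hp' := (hPmem p).1 hp
      have hq' := (hPmem q).1 hq
      rcases hxp with rfl | hxp
      · rcases hxq with h | h
        · exact hpq h
        · exact hPnadj q hq x hp h
      · rcases hxq with rfl | hxq
        · exact hPnadj p hp x hq hxp
        · by_cases hfx : 0 < f x
          · exact hPnadj p hp q hq (hclq' x hfx p q hp'.1 hq'.1 (Or.inr hxp.symm)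
              (Or.inr hxq.symm) hpq)
          · have hne : ∀ p, 0 < f p → G.Adj p x → r p ≠ r x := by
              intro p _ h1 h2
              have := hr1 p x h2
              subst this
              exact G.loopless.irrefl _ h1
            rcases Nat.lt_or_ge (r p) (r x) with h1 | h1
            · exact hlate p hp q hq hpq x hfx hxp hxq h1
            · rcases Nat.lt_or_ge (r q) (r x) with h2 | h2
              · exact hlate q hq p hp hpq.symm x hfx hxq hxp h2
              · have h1' : r x < r p := lt_of_le_of_ne h1 (Ne.symm (hne p hp'.1 hxp))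
                have h2' : r x < r q := lt_of_le_of_ne h2 (Ne.symm (hne q hq'.1 hxq))
                exact hPnadj p hp q hq (hr2 x p q h1' h2' hxp.symm hxq.symm hpq)
    · have h1 : (P.card : ℝ) = ∑ d ∈ P, closedSum G f d := by
        rw [Finset.sum_congr rfl (fun d _ => hf1 d)]
        simp
      have h2 : ∑ d ∈ P, closedSum G f d = ∑ v, (if v ∈ P then (1 : ℝ) else 0) * closedSum G f v := by
        simp [Finset.sum_ite_mem]
      rw [h1, h2, double_count]
      apply Finset.sum_congr rfl
      intro v _
      by_cases hfv : 0 < f v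
      · obtain ⟨d, hd, h⟩ := hPex v hfv
        have h3 : closedSum G (fun v => if v ∈ P then (1 : ℝ) else 0) v = 1 := by
          unfold closedSum
          rw [Finset.sum_eq_single_of_mem d]
          · simp [hd]
          · simpa using h
          · intro u hu hud
            rw [Finset.mem_filter] at hu
            have : u ∉ P := fun huP => hud (hPuniq v hfv u huP d hd hu.2 h)
            simp [this]
        rw [h3, mul_one]
      · have : f v = 0 := le_antisymm (not_lt.mp hfv) (hf0 v)
        rw [this, zero_mul]


end Pool.Agent.Y387.NE
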